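import Pool.Agent.Helper71.SN.Goals

/-!
# MP_9b2a83_an: packet LOW
-/

set_option autoImplicit false

namespace Pool.Agent.Helper71.SN.PkLOW

open Pool.Agent.Helper71.SN Pool.Agent.Helper39.Net

theorem arith (k b L P e : ℕ) (hL : 1 ≤ L)
    (h1 : b ^ L * L ^ (k + 2 - 1) ≤ 24 * 2 ^ (k + 2) * (k + 2) ^ (k + 2 - 1) * P)
    (h2 : P ≤ 2 * (6 * (k + 2) * L) * e) :
    (b : ℝ) ^ L * (L : ℝ) ^ k ≤ 288 * 2 ^ (k + 2) * ((k : ℝ) + 2) ^ (k + 2) * e := by
  have e1 : k + 2 - 1 = k + 1 := rfl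
  rw [e1] at h1
  have h3 : (b ^ L * L ^ k) * L ≤ (288 * 2 ^ (k + 2) * (k + 2) ^ (k + 2) * e) * L := by
    calc (b ^ L * L ^ k) * L = b ^ L * L ^ (k + 1) := by rw [pow_succ]; ring
      _ ≤ 24 * 2 ^ (k + 2) * (k + 2) ^ (k + 1) * P := h1
      _ ≤ 24 * 2 ^ (k + 2) * (k + 2) ^ (k + 1) * (2 * (6 * (k + 2) * L) * e) :=
          Nat.mul_le_mul_left _ h2
      _ = (288 * 2 ^ (k + 2) * (k + 2) ^ (k + 2) * e) * L := by
          rw [pow_succ (k + 2) (k + 1)]; ring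
  have h4 : b ^ L * L ^ k ≤ 288 * 2 ^ (k + 2) * (k + 2) ^ (k + 2) * e :=
    Nat.le_of_mul_le_mul_right h3 (by omega)
  exact_mod_cast h4

theorem thm : G_METRIC → G_QONE → G_QINF → G_CONFIG → G_LOW := by
  classical
  intro hmet hone hinf hconf k b L hL hb n hn c hc hcb
  obtain ⟨M, P, hM, hcfg, hP⟩ := hconf (k + 2) b L (by omega) hL hb
  have hb1 : 1 ≤ b := le_trans (Nat.one_le_pow _ _ (by omega)) hb
  have hn1 : 1 ≤ n := le_trans (Nat.one_le_pow _ _ hb1) hn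
  set B : ℕ := b ^ (L + 1) with hB
  have hB1 : 1 ≤ B := Nat.one_le_pow _ _ hb1
  have hBr : (1 : ℝ) ≤ (B : ℝ) := by exact_mod_cast hB1
  have hB2 : (b : ℝ) ^ (2 * (L + 1)) = (B : ℝ) ^ 2 := by
    rw [hB]; push_cast; rw [← pow_mul, mul_comm]
  rw [hB2] at hcb
  have hc0 : 0 ≤ c - 1 := by linarith
  have hk : (0 : ℝ) ≤ (k : ℝ) := Nat.cast_nonneg k
  have hBB : (B : ℝ) ≤ (B : ℝ) ^ 2 := by nlinarith
  constructor
  · have hemb : ∀ T : Finset (Fin (k + 2) → ℝ), T.card = n →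
        Embeds (dOne (d := k + 2)) T c (EN (dOne (d := k + 2)) n c) := by
      have hne : (Enough (dOne (d := k + 2)) n c).Nonempty := ⟨_, enough_one (k + 1) n hn1 c hc⟩
      exact EN_mem hne
    obtain ⟨T, hT, hTc⟩ := Infinite.exists_superset_card_eq (M.image (qOne (d := k + 2))) n
      (Finset.card_image_le.trans (hM.trans hn))
    have key := hmet (k + 2) b L (6 * (k + 2) * L) (by omega) hb1 M P hcfg (Fin (k + 2) → ℝ)
      (dOne (d := k + 2)) qOne 1 (((k + 2 : ℕ) : ℝ) * (B : ℝ)) c one_pos hc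
      (by
        have h1 : (c - 1) * (((k + 2 : ℕ) : ℝ) * (B : ℝ)) ≤
            (c - 1) * (((k + 2 : ℕ) : ℝ) * (B : ℝ) ^ 2) :=
          mul_le_mul_of_nonneg_left (mul_le_mul_of_nonneg_left hBB (Nat.cast_nonneg _)) hc0
        have h2 : (c - 1) * (8 * ((k : ℝ) + 2) * (B : ℝ) ^ 2) =
            8 * ((c - 1) * (((k + 2 : ℕ) : ℝ) * (B : ℝ) ^ 2)) := by push_cast; ring
        rw [h2] at hcb
        linarith)
      (fun x _ => dOne_self _)
      (fun p hp => ((hone (k + 2) B p.1 p.2 p.1 p.2 (hcfg.grid _ (hcfg.mem1 p hp))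
        (hcfg.grid _ (hcfg.mem2 p hp))).1 (Or.inr (hcfg.lt p hp))))
      (fun x hx y hy x' _ y' _ h1 h2 h3 =>
        (hone (k + 2) B x y x' y' (hcfg.grid _ hx) (hcfg.grid _ hy)).2 h1 h2 h3)
      T (fun x hx => hT (Finset.mem_image_of_mem _ hx)) _ (hemb T hTc)
    exact arith k b L P.card _ hL hP key
  · have hemb : ∀ T : Finset (Fin (k + 2) → ℝ), T.card = n →
        Embeds (dInf (d := k + 2)) T c (EN (dInf (d := k + 2)) n c) := by
      have hne : (Enough (dInf (d := k + 2)) n c).Nonempty := ⟨_, enough_inf (k + 1) n hn1 c hc⟩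
      exact EN_mem hne
    obtain ⟨T, hT, hTc⟩ := Infinite.exists_superset_card_eq (M.image (qInf k B)) n
      (Finset.card_image_le.trans (hM.trans hn))
    have hBpos : (0 : ℝ) < B := by linarith
    have key := hmet (k + 2) b L (6 * (k + 2) * L) (by omega) hb1 M P hcfg (Fin (k + 2) → ℝ)
      (dInf (d := k + 2)) (qInf k B) (1 / (B : ℝ)) (B : ℝ) c (by positivity) hc
      (by
        rw [div_div, lt_div_iff₀ (by positivity)]
        have h2 : (c - 1) * (8 * ((k : ℝ) + 2) * (B : ℝ) ^ 2) =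
            8 * ((k : ℝ) + 2) * ((c - 1) * (B : ℝ) ^ 2) := by ring
        rw [h2] at hcb
        have h3 : 0 ≤ (c - 1) * (B : ℝ) ^ 2 := by positivity
        have h4 : 16 * ((c - 1) * (B : ℝ) ^ 2) ≤ 8 * ((k : ℝ) + 2) * ((c - 1) * (B : ℝ) ^ 2) := by
          nlinarith
        nlinarith)
      (fun x _ => by simp [dInf])
      (fun p hp => ((hinf k B p.1 p.2 p.1 p.2 (hcfg.grid _ (hcfg.mem1 p hp))
        (hcfg.grid _ (hcfg.mem2 p hp)) (hcfg.grid _ (hcfg.mem1 p hp))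
        (hcfg.grid _ (hcfg.mem2 p hp))).1 (Or.inr (hcfg.lt p hp))))
      (fun x hx y hy x' hx' y' hy' h1 h2 h3 =>
        (hinf k B x y x' y' (hcfg.grid _ hx) (hcfg.grid _ hy) (hcfg.grid _ hx')
          (hcfg.grid _ hy')).2 h1 h2 h3)
      T (fun x hx => hT (Finset.mem_image_of_mem _ hx)) _ (hemb T hTc)
    exact arith k b L P.card _ hL hP key

end Pool.Agent.Helper71.SN.PkLOW
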